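import Mathlib
import Pool.Agent.Lib.MP_97bd52_lc.RS

namespace Pool.Agent.Lib.MP_97bd52_lc

/-- Pairs `(i, c)` below `p ^ t` whose binomial coefficient is not divisible by `p`. -/
def shadow (p t : ℕ) : Finset (ℕ × ℕ) :=
  (Finset.range (p ^ t) ×ˢ Finset.range (p ^ t)).filter fun x => ¬ p ∣ x.2.choose x.1

theorem card_tri (p : ℕ) :
    2 * ((Finset.range p).sigma fun b => Finset.range (b + 1)).card = p * (p + 1) := by
  rw [Finset.card_sigma]
  simp only [Finset.card_range]
  induction p with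
  | zero => simp
  | succ p ih => rw [Finset.sum_range_succ, mul_add, ih]; ring

theorem card_shadow (p : ℕ) [hp : Fact p.Prime] (t : ℕ) :
    2 ^ t * (shadow p t).card ≤ (p * (p + 1)) ^ t := by
  induction t with
  | zero =>
    have : (shadow p 0).card ≤ 1 := (Finset.card_filter_le _ _).trans (by simp)
    simpa using this
  | succ t ih =>
    have p0 : 0 < p := hp.out.pos
    have h : (shadow p (t + 1)).card ≤
        (shadow p t ×ˢ (Finset.range p).sigma fun b => Finset.range (b + 1)).card := by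
      refine Finset.card_le_card_of_injOn
        (fun x => ((x.1 / p, x.2 / p), ⟨x.2 % p, x.1 % p⟩)) ?_ ?_
      · rintro ⟨i, c⟩ hx
        simp only [shadow, Finset.coe_filter, Finset.mem_product, Finset.mem_range,
          Set.mem_ofPred_eq] at hx
        obtain ⟨⟨h1, h2⟩, h3⟩ := hx
        have L := (Choose.choose_modEq_choose_mod_mul_choose_div_nat (n := c) (k := i)
          (p := p)).dvd_iff (dvd_refl p)
        rw [L] at h3
        simp only [shadow, Finset.coe_product, Set.mem_prod, Finset.mem_coe, Finset.mem_filter,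
          Finset.mem_product, Finset.mem_range, Finset.mem_sigma]
        rw [pow_succ] at h1 h2
        refine ⟨⟨⟨(Nat.div_lt_iff_lt_mul p0).2 h1, (Nat.div_lt_iff_lt_mul p0).2 h2⟩,
          fun h => h3 (h.mul_left _)⟩, Nat.mod_lt _ p0, ?_⟩
        by_contra hlt
        rw [Nat.choose_eq_zero_of_lt (by omega), zero_mul] at h3
        exact h3 (dvd_zero p)
      · rintro ⟨i, c⟩ - ⟨i', c'⟩ - h
        simp only [Prod.mk.injEq, Sigma.mk.injEq, heq_eq_eq] at h
        obtain ⟨⟨h1, h2⟩, h3, h4⟩ := h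
        have e1 := Nat.div_add_mod i p
        have e2 := Nat.div_add_mod c p
        rw [h1, h4, Nat.div_add_mod] at e1
        rw [h2, h3, Nat.div_add_mod] at e2
        rw [e1, e2]
    rw [Finset.card_product] at h
    calc 2 ^ (t + 1) * (shadow p (t + 1)).card
        ≤ 2 ^ (t + 1) * ((shadow p t).card *
          ((Finset.range p).sigma fun b => Finset.range (b + 1)).card) := by gcongr
      _ = (2 ^ t * (shadow p t).card) *
          (2 * ((Finset.range p).sigma fun b => Finset.range (b + 1)).card) := by ring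
      _ ≤ (p * (p + 1)) ^ t * (p * (p + 1)) := by rw [card_tri]; gcongr
      _ = _ := by ring

/-- Good top digits in characteristic `p`, with `m + 3` digits. -/
def topsP (p m : ℕ) : Finset (ℕ × ℕ) :=
  (Finset.range (m + 3) ×ˢ Finset.range (m + 3)).filter fun x : ℕ × ℕ => ∀ i : ℕ, i < x.2 + 1 →
    (p ∣ x.2.choose i ∨ x.1 + i ≤ m ∨ (m + 3 ≤ x.1 + i ∧ x.1 + i ≤ 2 * m + 3))

theorem card_topsP {p m : ℕ} [hp : Fact p.Prime] (hm : m + 3 = p ^ 5) :
    (m + 3) ^ 2 ≤ 2 * (topsP p m).card := by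
  classical
  have h1 : Finset.range (m + 3) ×ˢ Finset.range (m + 3) ⊆ topsP p m ∪
      insert (m + 2, m + 2) ((shadow p 5 ×ˢ Finset.range 2).image
        fun y => (m + 1 + y.2 - y.1.1, y.1.2)) := by
    rintro ⟨b, c⟩ hx
    rw [Finset.mem_union]
    by_contra hn
    rw [not_or] at hn
    apply hn.1
    refine Finset.mem_filter.2 ⟨hx, fun i hi => ?_⟩
    by_contra hb
    simp only [Finset.mem_product, Finset.mem_range] at hx hi
    simp only [not_or] at hb
    apply hn.2
    rw [Finset.mem_insert]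
    by_cases hlt : b + i < m + 3
    · refine Or.inr (Finset.mem_image.2 ⟨((i, c), b + i - (m + 1)), ?_, ?_⟩)
      · simp only [shadow, Finset.mem_product, Finset.mem_filter, Finset.mem_range, ← hm]
        exact ⟨⟨⟨by omega, hx.2⟩, hb.1⟩, by omega⟩
      · simp only [Prod.mk.injEq, and_true]
        omega
    · left
      simp only [Prod.mk.injEq]
      omega
  have h2 := (Finset.card_le_card h1).trans (Finset.card_union_le _ _)
  have h3 := (Finset.card_insert_le (m + 2, m + 2) ((shadow p 5 ×ˢ Finset.range 2).image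
    fun y => (m + 1 + y.2 - y.1.1, y.1.2))).trans (Nat.succ_le_succ Finset.card_image_le)
  simp only [Finset.card_product, Finset.card_range] at h2 h3
  have h4 := card_shadow p 5
  have p2 := hp.out.two_le
  have h5 : (2 * (p + 1)) ^ 5 ≤ (3 * p) ^ 5 := Nat.pow_le_pow_left (by omega) 5
  have h6 : 32 * (p * (p + 1)) ^ 5 ≤ 243 * (m + 3) ^ 2 := by
    calc 32 * (p * (p + 1)) ^ 5 = p ^ 5 * (2 * (p + 1)) ^ 5 := by ring
      _ ≤ p ^ 5 * (3 * p) ^ 5 := by gcongr
      _ = _ := by rw [hm]; ring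
  have h7 : 32 ≤ m + 3 := by rw [hm]; exact Nat.pow_le_pow_left p2 5
  have h8 : 1024 ≤ (m + 3) ^ 2 := Nat.pow_le_pow_left h7 2
  rw [← sq] at h2
  norm_num at h4
  omega

variable {F : Type*} [Field F] [Fintype F]

theorem good_liftedP {p m j r : ℕ} [Fact p.Prime] [CharP F p] (hr : r = p ^ j)
    (hq : Fintype.card F = (m + 3) * r) {b1 c1 b0 c0 : ℕ} (h : (b1, c1) ∈ topsP p m)
    (hb : b0 < r) (hc : c0 < r) : Good F ((m + 2) * r) (b1 * r + b0) (c1 * r + c0) := by
  intro w α
  have hlow := good_of_add_lt (F := F) (Nat.lt_succ_self (b0 + c0)) w α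
  have e : (fun σ : F => σ ^ (b1 * r + b0) * (w + α * σ) ^ (c1 * r + c0)) =
      ∑ i ∈ Finset.range (c1 + 1), ((α ^ r) ^ i * (w ^ r) ^ (c1 - i) * (c1.choose i : F)) •
        (fun σ : F => σ ^ ((b1 + i) * r) * (σ ^ b0 * (w + α * σ) ^ c0)) := by
    funext σ
    have h1 : (w + α * σ) ^ r = α ^ r * σ ^ r + w ^ r := by
      rw [hr, add_pow_char_pow, mul_pow, add_comm]
    rw [pow_add (w + α * σ), mul_comm c1 r, pow_mul, h1, add_pow, Finset.sum_apply,
      Finset.sum_mul, Finset.mul_sum]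
    refine Finset.sum_congr rfl fun i _ => ?_
    simp only [Pi.smul_apply, smul_eq_mul]
    ring
  rw [e]
  have em : (m + 2) * r = m * r + 2 * r := add_mul _ _ _
  refine Submodule.sum_mem _ fun i hi => ?_
  rcases (Finset.mem_filter.1 h).2 i (Finset.mem_range.1 hi) with h2 | h2 | ⟨h2, h3⟩
  · rw [(CharP.cast_eq_zero_iff F p _).2 h2, mul_zero, zero_smul]
    exact Submodule.zero_mem _
  · refine Submodule.smul_mem _ _ (mul_mem_RS ?_ (pow_mem_RS (Nat.lt_succ_self _)) hlow)
    have : (b1 + i) * r ≤ m * r := Nat.mul_le_mul_right _ h2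
    omega
  · have e2 : (fun σ : F => σ ^ ((b1 + i) * r)) =
        fun σ : F => σ ^ ((b1 + i - (m + 3)) * r + 1) := by
      funext σ
      have : (b1 + i) * r = (b1 + i - (m + 3)) * r + Fintype.card F := by
        rw [hq, ← add_mul, Nat.sub_add_cancel h2]
      rw [this, pow_add, FiniteField.pow_card, pow_succ]
    have hm : (fun σ : F => σ ^ ((b1 + i) * r)) ∈ RS F ((b1 + i - (m + 3)) * r + 2) := by
      rw [e2]; exact pow_mem_RS (by omega)
    refine Submodule.smul_mem _ _ (mul_mem_RS ?_ hm hlow)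
    have : (b1 + i - (m + 3)) * r ≤ m * r :=
      Nat.mul_le_mul_right _ (by simp only at h3; omega)
    omega

theorem exists_good_setP {p m j r : ℕ} [hp : Fact p.Prime] [CharP F p] (hm : m + 3 = p ^ 5)
    (hr : r = p ^ j) (hq : Fintype.card F = (m + 3) * r) :
    ∃ S : Finset (ℕ × ℕ), Fintype.card F ^ 2 ≤ 2 * S.card ∧
      ∀ x ∈ S, x.1 < Fintype.card F ∧ x.2 < Fintype.card F ∧ Good F ((m + 2) * r) x.1 x.2 := by
  have r0 : 0 < r := by rw [hr]; exact pow_pos hp.out.pos _
  refine ⟨(topsP p m ×ˢ (Finset.range r ×ˢ Finset.range r)).image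
    fun x => (x.1.1 * r + x.2.1, x.1.2 * r + x.2.2), ?_, ?_⟩
  · rw [Finset.card_image_of_injOn]
    · simp only [Finset.card_product, Finset.card_range]
      calc Fintype.card F ^ 2 = (m + 3) ^ 2 * (r * r) := by rw [hq]; ring
        _ ≤ 2 * (topsP p m).card * (r * r) := Nat.mul_le_mul_right _ (card_topsP hm)
        _ = _ := by ring
    · rintro ⟨⟨a1, a2⟩, a3, a4⟩ ha ⟨⟨b1, b2⟩, b3, b4⟩ hb hab
      simp only [Finset.coe_product, Set.mem_prod, Finset.coe_range, Set.mem_Iio] at ha hb
      simp only [Prod.mk.injEq] at hab ⊢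
      have key : ∀ x y u v : ℕ, u < r → v < r → x * r + u = y * r + v → x = y ∧ u = v := by
        intro x y u v hu hv h
        have h1 := congrArg (· / r) h
        have h2 := congrArg (· % r) h
        simp only [mul_comm x r, mul_comm y r, Nat.mul_add_div r0, Nat.div_eq_of_lt hu,
          Nat.div_eq_of_lt hv, Nat.mul_add_mod, Nat.mod_eq_of_lt hu, Nat.mod_eq_of_lt hv] at h1 h2
        exact ⟨by simpa using h1, h2⟩
      obtain ⟨e1, e2⟩ := key _ _ _ _ ha.2.1 hb.2.1 hab.1
      obtain ⟨e3, e4⟩ := key _ _ _ _ ha.2.2 hb.2.2 hab.2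
      exact ⟨⟨e1, e3⟩, e2, e4⟩
  · intro x hx
    obtain ⟨⟨⟨a1, a2⟩, a3, a4⟩, ha, rfl⟩ := Finset.mem_image.1 hx
    simp only [Finset.mem_product, Finset.mem_range] at ha
    have h16 := (Finset.mem_filter.1 ha.1).1
    simp only [Finset.mem_product, Finset.mem_range] at h16
    have u1 : a1 * r ≤ (m + 2) * r := Nat.mul_le_mul_right _ (by omega)
    have u2 : a2 * r ≤ (m + 2) * r := Nat.mul_le_mul_right _ (by omega)
    have u3 : (m + 3) * r = (m + 2) * r + r := by ring
    exact ⟨by simp only; omega, by simp only; omega, good_liftedP hr hq ha.1 ha.2.1 ha.2.2⟩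

end Pool.Agent.Lib.MP_97bd52_lc
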