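import Mathlib
import Pool.Agent.Lib.MP_97bd52_lc.Hard
import Pool.Agent.Lib.MP_97bd52_lc.P.Luc

namespace Pool.Agent.Lib.MP_97bd52_lc

open Module Matrix

variable {F G : Type} [Field F] [Group G] (T : Tri F G) [Fintype F] [Fintype G]

theorem Tri.dim_sumP {p m j r : ℕ} [hp : Fact p.Prime] [CharP F p] (hm : m + 3 = p ^ 5)
    (hr : r = p ^ (j + 1)) (hq : Fintype.card F = (m + 3) * r)
    {y : ℕ} (hy : y ≤ Fintype.card F) :
    Fintype.card G ≤ p ^ 17 * (finrank F (T.code ((m + 2) * r) ((m + 2) * r) y) +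
      finrank F (T.code r r (Fintype.card F - y))) := by
  have u3 : (m + 3) * r = (m + 2) * r + r := by ring
  have hk : (m + 2) * r ≤ Fintype.card F := by omega
  have hqr : Fintype.card F - (m + 2) * r = r := by omega
  set A := line T.h1.x ((m + 2) * r)
  set B := line T.h2.x ((m + 2) * r)
  set C := line T.h3.x y
  have pA : perp A = line T.h1.x r := by rw [perp_line T.h1.onex hk, hqr]
  have pB : perp B = line T.h2.x r := by rw [perp_line T.h2.onex hk, hqr]
  have pC : perp C = line T.h3.x (Fintype.card F - y) := perp_line T.h3.onex hy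
  have h1 := finrank_three A B C
  have h2 := finrank_perp (A ⊔ B ⊔ C)
  rw [perp_sup, perp_sup, pA, pB, pC] at h2
  have h3 := Submodule.finrank_sup_add_finrank_inf_eq A B
  have h4 := finrank_perp (A ⊔ B)
  rw [perp_sup, pA, pB] at h4
  have h5 := finrank_line (G := G) T.h3.onex hy
  obtain ⟨S, hS, hS'⟩ := exists_good_setP (F := F) hm hr hq
  have q0 : 0 < Fintype.card F ^ 3 := by have := Fintype.card_pos (α := F); positivity
  have key : ∀ D L : ℕ, y * S.card ≤ L → Fintype.card G * L ≤ D * Fintype.card F ^ 3 →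
      finrank F C ≤ 2 * D := by
    intro D L a b
    apply Nat.le_of_mul_le_mul_right _ q0
    calc finrank F C * Fintype.card F ^ 3
        = (finrank F C * Fintype.card F) * Fintype.card F ^ 2 := by ring
      _ ≤ (Fintype.card G * y) * (2 * S.card) := by rw [h5]; gcongr
      _ = 2 * (Fintype.card G * (y * S.card)) := by ring
      _ ≤ 2 * (Fintype.card G * L) := by gcongr
      _ ≤ 2 * (D * Fintype.card F ^ 3) := by gcongr
      _ = _ := by ring
  have d23 := key _ _ (loc_lower_P hy hS') (finrank_inf_line T.h2 ((m + 2) * r) y)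
  have d31 := key _ _ (loc_lower_Q hy hS') (finrank_inf_line T.h3 y ((m + 2) * r))
  rw [T.e23] at d23
  rw [T.e31] at d31
  have d12 := finrank_inf_line T.h1 r r
  rw [T.e12] at d12
  have l12 := loc_lower_Q (F := F) (k := r) (l := r) (by omega)
    (S := Finset.range (p ^ j) ×ˢ Finset.range (p ^ j)) (fun x hx => by
      simp only [Finset.mem_product, Finset.mem_range] at hx
      have : p ^ j * 2 ≤ r := by
        rw [hr, pow_succ]; exact Nat.mul_le_mul_left _ hp.out.two_le
      exact ⟨by omega, by omega, good_of_add_lt (by omega)⟩)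
  simp only [Finset.card_product, Finset.card_range] at l12
  have d12' : Fintype.card G ≤
      p ^ 17 * finrank F (line T.h1.x r ⊓ line T.h2.x r : Submodule F (G → F)) := by
    apply Nat.le_of_mul_le_mul_right _ q0
    calc Fintype.card G * Fintype.card F ^ 3
        = p ^ 17 * (Fintype.card G * (r * (p ^ j * p ^ j))) := by rw [hq, hm, hr]; ring
      _ ≤ p ^ 17 * (Fintype.card G * finrank F (loc F r r)) := by gcongr
      _ ≤ p ^ 17 * (finrank F (line T.h1.x r ⊓ line T.h2.x r : Submodule F (G → F)) *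
            Fintype.card F ^ 3) := by gcongr
      _ = _ := by ring
  refine d12'.trans (Nat.mul_le_mul_left _ ?_)
  unfold Tri.code
  change finrank F C ≤ 2 * finrank F (B ⊓ C : Submodule F (G → F)) at d23
  change finrank F C ≤ 2 * finrank F (C ⊓ A : Submodule F (G → F)) at d31
  change _ ≤ finrank F (A ⊓ B ⊓ C : Submodule F (G → F)) + _
  omega

theorem Tri.exists_codesP {p j μ : ℕ} [hp : Fact p.Prime] [CharP F p] (hμ : μ = p ^ j)
    (hq : Fintype.card F = p ^ 21 * μ) :
    ∃ k1 k2 k3 l1 l2 l3 : ℕ, k1 ≤ Fintype.card F ∧ k2 ≤ Fintype.card F ∧ k3 ≤ Fintype.card F ∧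
      l1 ≤ Fintype.card F ∧ l2 ≤ Fintype.card F ∧ l3 ≤ Fintype.card F ∧ ∃ K : Finset G,
      Fintype.card G ≤ 8 * p ^ 34 * K.card ∧ Onto (T.code k1 k2 k3) K ∧
      Onto (T.code l1 l2 l3) K ∧
      ∀ u ∈ T.code k1 k2 k3, ∀ v ∈ T.code l1 l2 l3, (fun a => u a * v a) ∈
        T.code (Fintype.card F - μ) (Fintype.card F - μ) (Fintype.card F - μ) := by
  classical
  have p2 := hp.out.two_le
  obtain ⟨r, hr⟩ : ∃ r, r = p ^ (j + 15 + 1) := ⟨_, rfl⟩
  have h32 : 32 ≤ p ^ 5 := Nat.pow_le_pow_left p2 5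
  have h16 : 16 ≤ p ^ 4 := Nat.pow_le_pow_left p2 4
  obtain ⟨m, hm⟩ : ∃ m, m + 3 = p ^ 5 := ⟨p ^ 5 - 3, by omega⟩
  have hq' : Fintype.card F = (m + 3) * r := by rw [hq, hr, hμ, hm]; ring
  have u3 : (m + 3) * r = (m + 2) * r + r := by ring
  have n0 := Fintype.card_pos (α := G)
  have ex : ∃ y, y ≤ Fintype.card F ∧
      Fintype.card G ≤ 2 * (p ^ 17 * finrank F (T.code ((m + 2) * r) ((m + 2) * r) y)) := by
    refine ⟨_, le_rfl, ?_⟩
    have := T.dim_sumP hm hr hq' le_rfl
    rw [Nat.sub_self, T.code_zero, finrank_bot, add_zero] at this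
    omega
  obtain ⟨y, hy⟩ : ∃ y, Nat.find ex = y + 1 := by
    apply Nat.exists_eq_succ_of_ne_zero
    intro h0
    have := (Nat.find_spec ex).2
    rw [h0, T.code_zero, finrank_bot] at this
    omega
  obtain ⟨a1, a2⟩ := hy ▸ Nat.find_spec ex
  have a3 := Nat.find_min ex (show y < Nat.find ex by omega)
  have a4 := T.dim_sumP hm hr hq' (show y ≤ Fintype.card F by omega)
  have a5 := T.drop (l1 := r) (l2 := r) (l3 := Fintype.card F - y) (by omega) (by omega)
    (by omega) hq
  have a6 : Fintype.card G ≤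
      4 * (p ^ 17 * finrank F (T.code (r - μ) (r - μ) (Fintype.card F - y - μ))) := by
    rw [mul_add] at a4
    rw [show p ^ 21 = p ^ 4 * p ^ 17 by ring, mul_assoc, mul_assoc] at a5
    generalize p ^ 17 * finrank F (T.code (r - μ) (r - μ) (Fintype.card F - y - μ)) = b at a5 ⊢
    generalize p ^ 17 * finrank F (T.code r r (Fintype.card F - y)) = a at a4 a5
    have b1 : Fintype.card G ≤ 2 * a := by omega
    by_contra hlt
    have b2 := Nat.mul_le_mul_left (p ^ 4) b1
    have b3 := Nat.mul_le_mul_left (p ^ 4) (not_le.1 hlt).le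
    have b4 := Nat.mul_le_mul_right (Fintype.card G) h16
    nlinarith
  obtain ⟨K, hK, hU, hV⟩ := exists_common (U := T.code ((m + 2) * r) ((m + 2) * r) (y + 1))
    (V := T.code (r - μ) (r - μ) (Fintype.card F - y - μ)) fun f hf g => T.code_shift hf g
  refine ⟨(m + 2) * r, (m + 2) * r, y + 1, r - μ, r - μ, Fintype.card F - y - μ, by omega,
    by omega, a1, by omega, by omega, by omega, K, ?_, hU, hV, fun u hu v hv => ?_⟩
  · apply Nat.le_of_mul_le_mul_left _ n0
    calc Fintype.card G * Fintype.card G ≤ _ := Nat.mul_le_mul a2 a6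
      _ = 8 * p ^ 34 * (finrank F (T.code ((m + 2) * r) ((m + 2) * r) (y + 1)) *
          finrank F (T.code (r - μ) (r - μ) (Fintype.card F - y - μ))) := by ring
      _ ≤ 8 * p ^ 34 * (Fintype.card G * K.card) := by gcongr
      _ = _ := by ring
  · exact ⟨⟨mul_mem_line (by omega) hu.1.1 hv.1.1, mul_mem_line (by omega) hu.1.2 hv.1.2⟩,
      mul_mem_line (by omega) hu.2 hv.2⟩

include T in
/-- The hard family over the big field of characteristic `p`. -/
theorem Tri.hardP [DecidableEq G] {p : ℕ} [hp : Fact p.Prime] [CharP F p]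
    (hq : Fintype.card F = p ^ 134) :
    ∃ (A : (G → F) → Matrix ((Fin 3 × G × Fin (Fintype.card F)) ⊕ G)
        (G ⊕ (Fin 3 × G × Fin (Fintype.card F))) F) (W : Submodule F (G → F)) (c0 : G → F)
        (r gap : ℕ), Fam (3 * Fintype.card F ^ 2 + 1) A ∧ Fintype.card G ≤ 8 * p ^ 34 * gap ∧
      (∀ S : Finset G, 2 * p ^ 63 * S.card < Fintype.card G → Onto W S) ∧
      ∀ c ∈ W, (A c).rank = r ∧ (A (c0 + c)).rank = r + gap := by
  classical
  obtain ⟨μ, hμ⟩ : ∃ μ, μ = p ^ 113 := ⟨_, rfl⟩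
  obtain ⟨k1, k2, k3, l1, l2, l3, a1, a2, a3, b1, b2, b3, K, hK, hU, hV, hm⟩ :=
    T.exists_codesP (p := p) hμ (by rw [hq, hμ]; ring)
  have kc : ∀ k1 k2 k3, k1 ≤ Fintype.card F → k2 ≤ Fintype.card F → k3 ≤ Fintype.card F →
      LinearMap.ker (chk ![T.h1.x, T.h2.x, T.h3.x] ![k1, k2, k3]).mulVecLin = T.code k1 k2 k3 := by
    intro k1 k2 k3 a1 a2 a3
    ext f
    rw [ker_chk _ _ (by simp [Fin.forall_fin_succ, a1, a2, a3])]
    simp [Fin.forall_fin_succ, Tri.code, and_assoc]
  set Z := T.code (Fintype.card F - μ) (Fintype.card F - μ) (Fintype.card F - μ)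
  obtain ⟨c0, r, hr⟩ := rank_gap (chk ![T.h1.x, T.h2.x, T.h3.x] ![k1, k2, k3])
    (chk ![T.h1.x, T.h2.x, T.h3.x] ![l1, l2, l3]) (perp Z) K (by
      rw [kc _ _ _ a1 a2 a3, kc _ _ _ b1 b2 b3]
      intro c hc u hu v hv
      rw [← hc _ (hm u hu v hv)]
      simp only [dotProduct, mulVec_diagonal, dotProductBilin, LinearMap.coe_mk, AddHom.coe_mk]
      exact Finset.sum_congr rfl fun i _ => by ring)
    (by rwa [kc _ _ _ a1 a2 a3]) (by rwa [kc _ _ _ b1 b2 b3])
  refine ⟨_, perp Z, c0, r, K.card, fam_blk _ _ _, hK, fun S hS => onto_perp fun z hz h => ?_, hr⟩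
  by_contra h0
  have p2 : (2 : ℝ) ≤ p := by exact_mod_cast hp.out.two_le
  have p0 : (0 : ℝ) < p := by linarith
  have := T.distance (ε := 1 / (p : ℝ) ^ 67) (δ := 1 / (p : ℝ) ^ 21) (μ := μ) (by positivity)
    (by rw [div_le_one (by positivity)]; exact one_le_pow₀ (by linarith))
    (by rw [hq]; push_cast; apply le_of_eq; field_simp) (by positivity)
    (by rw [hq, hμ]; push_cast; apply le_of_eq; field_simp) hz h0
  have h1 : (Finset.univ.filter fun g => z g ≠ 0).card ≤ S.card :=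
    Finset.card_le_card fun g hg => by
      by_contra hg'
      exact (Finset.mem_filter.1 hg).2 (h g hg')
  have h2 : ((Finset.univ.filter fun g => z g ≠ 0).card : ℝ) ≤ S.card := by exact_mod_cast h1
  have h3 : 2 * (p : ℝ) ^ 63 * S.card < Fintype.card G := by exact_mod_cast hS
  have h4 : (16 : ℝ) ≤ (p : ℝ) ^ 4 := by
    have := pow_le_pow_left₀ (by norm_num) p2 4
    linarith
  have h5 : 1 / (2 * (p : ℝ) ^ 63) ≤ (1 / (p : ℝ) ^ 21) ^ 3 - 5 * (1 / (p : ℝ) ^ 67) := by
    have e : (1 / (p : ℝ) ^ 21) ^ 3 - 5 * (1 / (p : ℝ) ^ 67) - 1 / (2 * (p : ℝ) ^ 63) =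
        ((p : ℝ) ^ 4 - 10) / (2 * (p : ℝ) ^ 67) := by field_simp; ring
    have : 0 ≤ ((p : ℝ) ^ 4 - 10) / (2 * (p : ℝ) ^ 67) :=
      div_nonneg (by linarith) (by positivity)
    linarith
  have h6 := (mul_le_mul_of_nonneg_right h5 (Nat.cast_nonneg (Fintype.card G))).trans
    (this.trans h2)
  rw [div_mul_eq_mul_div, one_mul, div_le_iff₀ (by positivity)] at h6
  linarith

end Pool.Agent.Lib.MP_97bd52_lc
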