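import Mathlib
import Pool.Agent.Lib.MP_97bd52_lc.Hard

namespace Pool.Agent.Lib.MP_97bd52_lc

open Module Matrix

theorem cyc_const {K : Type} {D : ℕ} {s : Fin (D + 1) → K} (h : ∀ k, s (k + 1) = s k) (k) :
    s k = s 0 := by
  induction k using Fin.induction with
  | zero => rfl
  | succ k ih => rw [← ih, ← h k.castSucc, Fin.coeSucc_eq_succ]

theorem cyc_exists {K : Type} [AddCommGroup K] {D : ℕ} {a : Fin (D + 1) → K}
    (h : ∑ k, a k = 0) (t : K) : ∃ s : Fin (D + 1) → K, s 0 = t ∧ ∀ k, s (k + 1) = s k + a k := by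
  refine ⟨fun k => t + ∑ k' ∈ Finset.Iio k, a k', ?_, fun k => ?_⟩
  · have : Finset.Iio (0 : Fin (D + 1)) = ∅ := by ext; simp
    simp [this]
  · have e : ∑ k' ∈ Finset.Iio k, a k' + a k = ∑ k' ∈ Finset.Iic k, a k' := by
      rw [← Finset.Iio_insert, Finset.sum_insert (by simp), add_comm]
    simp only [add_assoc, e]
    congr 1
    induction k using Fin.lastCases with
    | last =>
      have h0 : Finset.Iio (0 : Fin (D + 1)) = ∅ := by ext; simp
      have h1 : Finset.Iic (Fin.last D) = Finset.univ := by ext x; simp [Fin.le_last]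
      rw [Fin.last_add_one, h0, h1, h, Finset.sum_empty]
    | cast k =>
      have : Finset.Iio k.succ = Finset.Iic k.castSucc := by
        ext x
        simp only [Finset.mem_Iio, Finset.mem_Iic, Fin.lt_def, Fin.le_def, Fin.val_succ,
          Fin.val_castSucc]
        omega
      rw [Fin.coeSucc_eq_succ, this]

section Red

variable {K I J : Type} [Field K] [DecidableEq I] [DecidableEq J] {D : ℕ}
  (ρ κ : I → J → Fin (D + 1))

/-- Degree reduction: copies of every column, partial sums along every row. -/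
def red (M : Matrix I J K) :
    Matrix ((I × Fin (D + 1)) ⊕ (J × Fin (D + 1))) ((J × Fin (D + 1)) ⊕ (I × Fin (D + 1))) K
  | .inl a, .inl b => if ρ a.1 b.1 = a.2 ∧ κ a.1 b.1 = b.2 then M a.1 b.1 else 0
  | .inl a, .inr b => (if b = a then 1 else 0) - (if b = (a.1, a.2 + 1) then 1 else 0)
  | .inr a, .inl b => (if b = a then 1 else 0) - (if b = (a.1, a.2 + 1) then 1 else 0)
  | .inr _, .inr _ => 0

variable [Fintype I] [Fintype J]

theorem red_inl (M : Matrix I J K) (v) (a : I × Fin (D + 1)) :
    (red ρ κ M *ᵥ v) (.inl a) = ∑ j, (if ρ a.1 j = a.2 then M a.1 j * v (.inl (j, κ a.1 j)) else 0)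
      + (v (.inr a) - v (.inr (a.1, a.2 + 1))) := by
  simp only [mulVec, dotProduct, Fintype.sum_sum_type, red, sub_mul, Finset.sum_sub_distrib,
    ite_mul, one_mul, zero_mul, Finset.sum_ite_eq', Finset.mem_univ, if_true]
  congr 1
  rw [Fintype.sum_prod_type]
  refine Finset.sum_congr rfl fun j _ => ?_
  by_cases h : ρ a.1 j = a.2 <;> simp [h]

theorem red_inr (M : Matrix I J K) (v) (a : J × Fin (D + 1)) :
    (red ρ κ M *ᵥ v) (.inr a) = v (.inl a) - v (.inl (a.1, a.2 + 1)) := by
  simp only [mulVec, dotProduct, Fintype.sum_sum_type, red, sub_mul, Finset.sum_sub_distrib,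
    ite_mul, one_mul, zero_mul, Finset.sum_ite_eq', Finset.mem_univ, if_true]
  simp

omit [DecidableEq I] [DecidableEq J] [Fintype I] in
theorem red_sum (M : Matrix I J K) (y : J → K) (i : I) :
    ∑ k, ∑ j, (if ρ i j = k then M i j * y j else 0) = (M *ᵥ y) i := by
  rw [Finset.sum_comm]
  simp [mulVec, dotProduct]

theorem red_ker {M : Matrix I J K} {v} (h : red ρ κ M *ᵥ v = 0) :
    (∀ j l, v (.inl (j, l)) = v (.inl (j, 0))) ∧ ∀ i k, v (.inr (i, k + 1)) =
      v (.inr (i, k)) + ∑ j, (if ρ i j = k then M i j * v (.inl (j, 0)) else 0) := by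
  have h1 : ∀ j l, v (.inl (j, l)) = v (.inl (j, 0)) := fun j =>
    cyc_const (s := fun l => v (.inl (j, l))) fun l => by
      have := congrFun h (.inr (j, l))
      rw [red_inr] at this
      exact (sub_eq_zero.1 this).symm
  refine ⟨h1, fun i k => ?_⟩
  have := congrFun h (.inl (i, k))
  rw [red_inl] at this
  simp only [fun j => h1 j (κ i j), Pi.zero_apply] at this
  linear_combination -this

theorem rank_red (M : Matrix I J K) :
    (red ρ κ M).rank = M.rank + D * (Fintype.card I + Fintype.card J) := by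
  let φ : LinearMap.ker (red ρ κ M).mulVecLin →ₗ[K] LinearMap.ker M.mulVecLin × (I → K) :=
    { toFun := fun v => (⟨fun j => v.1 (.inl (j, 0)), by
        funext i
        have h := (red_ker ρ κ v.2).2 i
        have h1 := Finset.sum_congr (rfl : (Finset.univ : Finset (Fin (D + 1))) = _)
          fun k _ => h k
        rw [Finset.sum_add_distrib, red_sum ρ M (fun j => v.1 (.inl (j, 0)))] at h1
        have h2 := Equiv.sum_comp (Equiv.addRight (1 : Fin (D + 1))) fun k => v.1 (.inr (i, k))
        simp only [Equiv.coe_addRight] at h2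
        rw [h2] at h1
        exact left_eq_add.1 h1⟩, fun i => v.1 (.inr (i, 0)))
      map_add' := fun _ _ => rfl
      map_smul' := fun _ _ => rfl }
  have hφ : Function.Bijective φ := by
    constructor
    · rw [← LinearMap.ker_eq_bot, eq_bot_iff]
      intro v hv
      have hv' : φ v = 0 := hv
      have a1 : ∀ j, v.1 (.inl (j, 0)) = 0 := fun j =>
        congrFun (congrArg (fun z => z.1.1) hv') j
      have a2 : ∀ i, v.1 (.inr (i, 0)) = 0 := fun i => congrFun (congrArg Prod.snd hv') i
      obtain ⟨h1, h2⟩ := red_ker ρ κ v.2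
      refine Subtype.ext (funext ?_)
      rintro (⟨j, l⟩ | ⟨i, k⟩)
      · exact (h1 j l).trans (a1 j)
      · refine (cyc_const (s := fun k => v.1 (.inr (i, k))) (fun k => ?_) k).trans (a2 i)
        simp [h2, a1]
    · rintro ⟨⟨y, hy⟩, t⟩
      have hs := fun i => cyc_exists
        ((red_sum ρ M y i).trans (congrFun (show M *ᵥ y = 0 from hy) i)) (t i)
      choose s s0 hs using hs
      refine ⟨⟨Sum.elim (fun b => y b.1) fun a => s a.1 a.2, ?_⟩, ?_⟩
      · show red ρ κ M *ᵥ _ = 0
        funext a
        rcases a with a | a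
        · rw [red_inl]
          simp [hs]
        · rw [red_inr]
          simp
      · exact Prod.ext rfl (funext s0)
  have h1 := (LinearEquiv.ofBijective φ hφ).finrank_eq
  have h2 := LinearMap.finrank_range_add_finrank_ker (red ρ κ M).mulVecLin
  have h3 := LinearMap.finrank_range_add_finrank_ker M.mulVecLin
  rw [finrank_prod, finrank_fintype_fun_eq_card] at h1
  rw [finrank_fintype_fun_eq_card] at h2 h3
  simp only [Fintype.card_sum, Fintype.card_prod, Fintype.card_fin] at h2
  unfold Matrix.rank
  have e : Fintype.card J * (D + 1) + Fintype.card I * (D + 1) =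
      D * (Fintype.card I + Fintype.card J) + Fintype.card I + Fintype.card J := by ring
  omega

end Red

theorem exists_slot {J : Type} {D : ℕ} {s : Finset J} (hs : s.card ≤ D) :
    ∃ f : J → Fin (D + 1), ∀ a ∈ s, ∀ b ∈ s, f a = f b → a = b := by
  classical
  obtain ⟨e⟩ : Nonempty (s ↪ Fin (D + 1)) :=
    Function.Embedding.nonempty_of_card_le (by simp; omega)
  refine ⟨fun j => if h : j ∈ s then e ⟨j, h⟩ else 0, fun a ha b hb h => ?_⟩
  simp only [dif_pos ha, dif_pos hb] at h
  exact congrArg Subtype.val (e.injective h)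

theorem two_ne {K α : Type} [Field K] [DecidableEq α] {b x y : α}
    (h : ((if b = x then 1 else 0) - (if b = y then 1 else 0) : K) ≠ 0) : b = x ∨ b = y := by
  by_contra hn
  rw [not_or] at hn
  simp [hn.1, hn.2] at h

theorem card_three {α : Type} [DecidableEq α] {s : Finset α} (hs : s.card ≤ 1) (x y : α) :
    (insert x (insert y s)).card ≤ 3 :=
  (Finset.card_insert_le _ _).trans (Nat.succ_le_succ
    ((Finset.card_insert_le _ _).trans (Nat.succ_le_succ hs)))

/-- Every sparse family has a version of degree three whose ranks are shifted by a constant. -/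
theorem Fam.red {G F K I J : Type} [Nonempty G] [Fintype F] [Field K] [Fintype I] [Fintype J]
    [DecidableEq I] [DecidableEq J] {d : ℕ} {A : (G → F) → Matrix I J K} (h : Fam d A) :
    ∃ ρ κ : I → J → Fin (Fintype.card F * d + 1), Fam 3 fun c => red ρ κ (A c) := by
  classical
  have hr : ∀ i, ∃ f : J → Fin (Fintype.card F * d + 1), ∀ c a b, A c i a ≠ 0 → A c i b ≠ 0 →
      f a = f b → a = b := by
    intro i
    obtain ⟨g, hg⟩ := h.drow i
    choose s hs hs' using fun a : F => h.row (fun _ => a) i
    obtain ⟨f, hf⟩ := exists_slot (s := Finset.univ.biUnion s) (D := Fintype.card F * d)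
      (Finset.card_biUnion_le_card_mul _ _ _ fun a _ => hs a)
    have : ∀ c a, A c i a ≠ 0 → a ∈ Finset.univ.biUnion s := fun c a ha =>
      Finset.mem_biUnion.2 ⟨c g, Finset.mem_univ _, hs' _ _ (hg c (fun _ => c g) rfl a ▸ ha)⟩
    exact ⟨f, fun c a b ha hb => hf a (this c a ha) b (this c b hb)⟩
  have hc : ∀ j, ∃ f : I → Fin (Fintype.card F * d + 1), ∀ c a b, A c a j ≠ 0 → A c b j ≠ 0 →
      f a = f b → a = b := by
    intro j
    obtain ⟨g, hg⟩ := h.dcol j
    choose s hs hs' using fun a : F => h.col (fun _ => a) j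
    obtain ⟨f, hf⟩ := exists_slot (s := Finset.univ.biUnion s) (D := Fintype.card F * d)
      (Finset.card_biUnion_le_card_mul _ _ _ fun a _ => hs a)
    have : ∀ c a, A c a j ≠ 0 → a ∈ Finset.univ.biUnion s := fun c a ha =>
      Finset.mem_biUnion.2 ⟨c g, Finset.mem_univ _, hs' _ _ (hg c (fun _ => c g) rfl a ▸ ha)⟩
    exact ⟨f, fun c a b ha hb => hf a (this c a ha) b (this c b hb)⟩
  choose ρ hρ using hr
  choose κ hκ using hc
  refine ⟨ρ, fun i j => κ j i, ?_, ?_, ?_, ?_⟩
  · rintro c (a | a)
    · refine ⟨insert (.inr a) (insert (.inr (a.1, a.2 + 1))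
        ((Finset.univ.filter fun j => A c a.1 j ≠ 0 ∧ ρ a.1 j = a.2).image
          fun j => .inl (j, κ j a.1))), card_three (Finset.card_image_le.trans
        (Finset.card_le_one.2 fun x hx y hy => ?_)) _ _, ?_⟩
      · simp only [Finset.mem_filter] at hx hy
        exact hρ _ c _ _ hx.2.1 hy.2.1 (hx.2.2.trans hy.2.2.symm)
      · rintro (b | b) hb
        · obtain ⟨⟨h1, h2⟩, h3⟩ := ite_ne_right_iff.1 hb
          refine Finset.mem_insert_of_mem (Finset.mem_insert_of_mem
            (Finset.mem_image.2 ⟨b.1, by simp [h1, h3], by rw [show κ b.1 a.1 = b.2 from h2]⟩))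
        · rcases two_ne hb with rfl | rfl <;> simp
    · refine ⟨insert (.inl a) (insert (.inl (a.1, a.2 + 1)) ∅), card_three (by simp) _ _, ?_⟩
      rintro (b | b) hb
      · rcases two_ne hb with rfl | rfl <;> simp
      · exact absurd rfl hb
  · have back : ∀ {X : Type} {a b : X × Fin (Fintype.card F * d + 1)}, b = (a.1, a.2 + 1) →
        a = (b.1, b.2 - 1) := by
      rintro X a b rfl
      simp
    rintro c (b | b)
    · refine ⟨insert (.inr b) (insert (.inr (b.1, b.2 - 1))
        ((Finset.univ.filter fun i => A c i b.1 ≠ 0 ∧ κ b.1 i = b.2).image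
          fun i => .inl (i, ρ i b.1))), card_three (Finset.card_image_le.trans
        (Finset.card_le_one.2 fun x hx y hy => ?_)) _ _, ?_⟩
      · simp only [Finset.mem_filter] at hx hy
        exact hκ _ c _ _ hx.2.1 hy.2.1 (hx.2.2.trans hy.2.2.symm)
      · rintro (a | a) ha
        · obtain ⟨⟨h1, h2⟩, h3⟩ := ite_ne_right_iff.1 ha
          refine Finset.mem_insert_of_mem (Finset.mem_insert_of_mem
            (Finset.mem_image.2 ⟨a.1, by simp [show κ b.1 a.1 = b.2 from h2, h3], by rw [h1]⟩))
        · rcases two_ne ha with rfl | e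
          · simp
          · simp [back e]
    · refine ⟨insert (.inl b) (insert (.inl (b.1, b.2 - 1)) ∅), card_three (by simp) _ _, ?_⟩
      rintro (a | a) ha
      · rcases two_ne ha with rfl | e
        · simp
        · simp [back e]
      · exact absurd rfl ha
  · rintro (a | a)
    · obtain ⟨g, hg⟩ := h.drow a.1
      refine ⟨g, fun c c' e b => ?_⟩
      rcases b with b | b
      · simp only [Pool.Agent.Lib.MP_97bd52_lc.red, hg c c' e]
      · rfl
    · exact ⟨Classical.arbitrary G, fun c c' _ b => by rcases b with b | b <;> rfl⟩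
  · rintro (b | b)
    · obtain ⟨g, hg⟩ := h.dcol b.1
      refine ⟨g, fun c c' e a => ?_⟩
      rcases a with a | a
      · simp only [Pool.Agent.Lib.MP_97bd52_lc.red, hg c c' e]
      · rfl
    · exact ⟨Classical.arbitrary G, fun c c' _ a => by rcases a with a | a <;> rfl⟩

end Pool.Agent.Lib.MP_97bd52_lc
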