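import Mathlib
import Pool.Agent.Lib.MP_97bd52_lc.Defs

namespace Pool.Agent.Lib.MP_97bd52_lc

open MeasureTheory

/-- Some randomised algorithm makes at most `Q` queries on every `m × n` matrix over `ZMod p`
with at most `d` nonzero entries in each row and column, and on each such matrix outputs a real
within `ε n` of its rank with probability at least `2/3`. -/
def Solves (p d : ℕ) (ε : ℝ) (m n Q : ℕ) : Prop :=
  ∃ (Ω : Type) (_ : MeasurableSpace Ω) (μ : Measure Ω) (_ : IsProbabilityMeasure μ)
    (T : Ω → Alg p m n), ∀ A : Matrix (Fin m) (Fin n) (ZMod p), Sparse d A →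
      (∀ ω, (T ω).queries A ≤ Q) ∧
      MeasurableSet {ω | |(T ω).output A - (A.rank : ℝ)| ≤ ε * n} ∧
      2 / 3 ≤ μ.real {ω | |(T ω).output A - (A.rank : ℝ)| ≤ ε * n}

end Pool.Agent.Lib.MP_97bd52_lc
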