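import Mathlib

namespace Pool.Agent.Lib.MP_97bd52_lc

open Module Matrix

variable {K : Type} [Field K] {m n : ℕ} (A : Matrix (Fin m) (Fin n) K)

/-- Column `j` is the last column of a linear dependency among the columns in `S`. -/
def Dep (S : Finset (Fin n)) (j : Fin n) : Prop :=
  ∃ x : Fin n → K, x j ≠ 0 ∧ (∀ i, x i ≠ 0 → i ≤ j ∧ i ∈ S) ∧ A *ᵥ x = 0

open Classical in
theorem card_dep : A.rank + (Finset.univ.filter fun j => Dep A Finset.univ j).card = n := by
  have h1 := LinearMap.finrank_range_add_finrank_ker A.mulVecLin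
  rw [finrank_fintype_fun_eq_card, Fintype.card_fin] at h1
  have top : ∀ x : Fin n → K, x ≠ 0 → ∃ j, x j ≠ 0 ∧ ∀ i, x i ≠ 0 → i ≤ j := by
    intro x hx
    obtain ⟨j, hj, h⟩ := Finset.exists_max_image (Finset.univ.filter fun i => x i ≠ 0) id
      (by obtain ⟨i, hi⟩ := Function.ne_iff.1 hx; exact ⟨i, by simpa using hi⟩)
    exact ⟨j, by simpa using hj, fun i hi => h i (by simpa using hi)⟩
  have a1 : finrank K (LinearMap.ker A.mulVecLin) ≤
      Fintype.card {j // Dep A Finset.univ j} := by
    rw [← finrank_fintype_fun_eq_card K]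
    refine LinearMap.finrank_le_finrank_of_injective
      (f := (LinearMap.funLeft K K Subtype.val).comp (Submodule.subtype _)) ?_
    rw [← LinearMap.ker_eq_bot, eq_bot_iff]
    rintro ⟨x, hx⟩ h0
    by_contra hne
    obtain ⟨j, hj, h⟩ := top x fun e => hne (Subtype.ext e)
    have h0' : (fun j : {j // Dep A Finset.univ j} => x j.1) = 0 := h0
    exact hj (congrFun h0' ⟨j, x, hj, fun i hi => ⟨h i hi, Finset.mem_univ _⟩, hx⟩)
  have a2 : Fintype.card {j // Dep A Finset.univ j} ≤ finrank K (LinearMap.ker A.mulVecLin) := by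
    choose x hx hx' hx'' using fun j : {j // Dep A Finset.univ j} => j.2
    refine LinearIndependent.fintype_card_le_finrank
      (b := fun j => (⟨x j, hx'' j⟩ : LinearMap.ker A.mulVecLin)) ?_
    rw [Fintype.linearIndependent_iff]
    intro g hg
    by_contra hne
    rw [not_forall] at hne
    obtain ⟨j, hj, h⟩ := Finset.exists_max_image (Finset.univ.filter fun i => g i ≠ 0)
      (fun i => i.1) (by obtain ⟨i, hi⟩ := hne; exact ⟨i, by simpa using hi⟩)
    have e := congrFun (congrArg Subtype.val hg) j.1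
    simp only [Submodule.coe_sum, Submodule.coe_smul, Finset.sum_apply, Pi.smul_apply,
      smul_eq_mul, Submodule.coe_zero, Pi.zero_apply] at e
    rw [Finset.sum_eq_single j] at e
    · exact mul_ne_zero (by simpa using hj) (hx j) e
    · intro i _ hi
      by_contra h0
      exact hi (Subtype.ext (le_antisymm (h i (by simpa using left_ne_zero_of_mul h0))
        (hx' i _ (right_ne_zero_of_mul h0)).1))
    · simp
  rw [← Fintype.card_subtype]
  unfold Matrix.rank
  omega

open Classical in
/-- Rows meeting the columns in `S`. -/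
noncomputable def nbR (S : Finset (Fin n)) : Finset (Fin m) :=
  Finset.univ.filter fun i => ∃ j ∈ S, A i j ≠ 0

open Classical in
/-- Columns meeting the rows in `R`. -/
noncomputable def nbC (R : Finset (Fin m)) : Finset (Fin n) :=
  Finset.univ.filter fun j => ∃ i ∈ R, A i j ≠ 0

/-- The ball of columns around `j`. -/
noncomputable def ball (j : Fin n) : ℕ → Finset (Fin n)
  | 0 => {j}
  | L + 1 => ball j L ∪ nbC A (nbR A (ball j L))

theorem mem_ball_succ {j b : Fin n} {L : ℕ} : b ∈ ball A j (L + 1) ↔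
    b ∈ ball A j L ∨ ∃ i, (∃ a ∈ ball A j L, A i a ≠ 0) ∧ A i b ≠ 0 := by
  simp [ball, nbC, nbR]

theorem self_mem_ball (j : Fin n) (L : ℕ) : j ∈ ball A j L := by
  induction L with
  | zero => simp [ball]
  | succ L ih => exact (mem_ball_succ A).2 (Or.inl ih)

theorem ball_sub {P : Fin n → Prop} (hP : ∀ i a b, A i a ≠ 0 → A i b ≠ 0 → P a → P b) {j : Fin n}
    (hj : P j) (L : ℕ) : ∀ b ∈ ball A j L, P b := by
  induction L with
  | zero => simpa [ball] using hj
  | succ L ih =>
    intro b hb
    rcases (mem_ball_succ A).1 hb with h | ⟨i, ⟨a, ha, h1⟩, h2⟩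
    · exact ih b h
    · exact hP i a b h1 h2 (ih a ha)

variable {A}

theorem ker_closed (hA : ∀ i, Set.ncard {j | A i j ≠ 0} ≤ 2) {x : Fin n → K} (hx : A *ᵥ x = 0)
    (i : Fin m) (a b : Fin n) (ha : A i a ≠ 0) (hb : A i b ≠ 0) (h : x a ≠ 0) : x b ≠ 0 := by
  intro h0
  have e : ∑ c, A i c * x c = 0 := congrFun hx i
  rw [Finset.sum_eq_single a] at e
  · exact mul_ne_zero ha h e
  · intro c _ hc
    by_contra hn
    have h3 : 2 < Set.ncard {j | A i j ≠ 0} := (Set.two_lt_ncard_iff (Set.toFinite _)).2
      ⟨a, b, c, ha, hb, left_ne_zero_of_mul hn, fun e => h (e ▸ h0), hc.symm,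
        fun e => right_ne_zero_of_mul hn (e ▸ h0)⟩
    exact absurd (hA i) (not_le.2 h3)
  · simp

theorem Dep.mono {S S' : Finset (Fin n)} (h : S ⊆ S') {j : Fin n} (hd : Dep A S j) :
    Dep A S' j := by
  obtain ⟨x, h1, h2, h3⟩ := hd
  exact ⟨x, h1, fun i hi => ⟨(h2 i hi).1, h (h2 i hi).2⟩, h3⟩

theorem card_ball_of_bad {j : Fin n} (h : Dep A Finset.univ j) (L : ℕ)
    (hb : ¬ Dep A (ball A j L) j) : L + 1 ≤ (ball A j L).card := by
  classical
  have key : ∀ L, ¬ Dep A (ball A j L) j → ball A j L ⊂ ball A j (L + 1) := by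
    intro L hb
    refine ⟨Finset.subset_union_left, fun hs => hb ?_⟩
    obtain ⟨x, h1, h2, h3⟩ := h
    refine ⟨fun c => if c ∈ ball A j L then x c else 0, by simpa [self_mem_ball] using h1,
      fun c hc => ?_, funext fun i => ?_⟩
    · obtain ⟨h4, h5⟩ := ite_ne_right_iff.1 hc
      exact ⟨(h2 c h5).1, h4⟩
    · show ∑ c, A i c * (if c ∈ ball A j L then x c else 0) = 0
      by_cases hi : ∃ a ∈ ball A j L, A i a ≠ 0
      · refine Eq.trans (Finset.sum_congr rfl fun c _ => ?_)
          (show ∑ c, A i c * x c = 0 from congrFun h3 i)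
        by_cases hc : A i c = 0
        · simp [hc]
        · simp [hs ((mem_ball_succ A).2 (Or.inr ⟨i, hi, hc⟩))]
      · refine Finset.sum_eq_zero fun c _ => ?_
        by_cases hc : c ∈ ball A j L
        · have : A i c = 0 := by
            by_contra h0
            exact hi ⟨c, hc, h0⟩
          simp [this]
        · simp [hc]
  induction L with
  | zero => simp [ball]
  | succ L ih =>
    have hb' : ¬ Dep A (ball A j L) j := fun hd => hb (hd.mono Finset.subset_union_left)
    exact Nat.succ_le_of_lt ((ih hb').trans_lt (Finset.card_lt_card (key L hb')))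

open Classical in
theorem card_bad (hA : ∀ i, Set.ncard {j | A i j ≠ 0} ≤ 2) (L : ℕ) :
    (Finset.univ.filter fun j => Dep A Finset.univ j ∧ ¬ Dep A (ball A j L) j).card * (L + 1)
      ≤ n := by
  have le : ∀ j j', Dep A Finset.univ j → ∀ a ∈ ball A j L, a ∈ ball A j' L → j' ≤ j := by
    rintro j j' ⟨x, h1, h2, h3⟩ a ha ha'
    have b1 := ball_sub A (P := fun c => x c ≠ 0) (ker_closed hA h3) h1 L a ha
    by_contra hn
    exact ball_sub A (P := fun c => ¬ x c ≠ 0)
      (fun i a b ha hb h h' => h (ker_closed hA h3 i b a hb ha h'))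
      (fun h => hn (h2 j' h).1) L a ha' b1
  have h1 := Finset.card_biUnion (s := Finset.univ.filter fun j => Dep A Finset.univ j ∧
    ¬ Dep A (ball A j L) j) (t := fun j => ball A j L) (fun j hj j' hj' hne => by
      simp only [Finset.coe_filter, Finset.mem_univ, true_and, Set.mem_ofPred_eq] at hj hj'
      exact Finset.disjoint_left.2 fun a ha ha' =>
        hne (le_antisymm (le j' j hj'.1 a ha' ha) (le j j' hj.1 a ha ha')))
  have h2 := Finset.card_nsmul_le_sum (Finset.univ.filter fun j => Dep A Finset.univ j ∧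
    ¬ Dep A (ball A j L) j) (fun j => (ball A j L).card) (L + 1) fun j hj =>
      card_ball_of_bad (Finset.mem_filter.1 hj).2.1 L (Finset.mem_filter.1 hj).2.2
  rw [← h1, smul_eq_mul] at h2
  exact h2.trans ((Finset.card_le_univ _).trans_eq (Fintype.card_fin n))

open Classical in
/-- The local indicators add up to the rank, up to `n / (L + 1)`. -/
theorem sum_dep (hA : ∀ i, Set.ncard {j | A i j ≠ 0} ≤ 2) (L : ℕ) :
    |∑ j, (if Dep A (ball A j L) j then (0 : ℝ) else 1) - A.rank| ≤ n / (L + 1) := by
  have h1 := card_dep A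
  have h2 := card_bad hA L
  have h3 := Finset.card_filter_add_card_filter_not
    (s := Finset.univ.filter fun j => Dep A Finset.univ j) fun j => Dep A (ball A j L) j
  have h4 := Finset.card_filter_add_card_filter_not
    (s := Finset.univ) fun j => Dep A (ball A j L) j
  rw [Finset.filter_filter, Finset.filter_filter, Finset.filter_congr fun j _ =>
    and_iff_right_of_imp (Dep.mono (Finset.subset_univ _))] at h3
  rw [Finset.card_univ, Fintype.card_fin] at h4
  have h5 : ∑ j, (if Dep A (ball A j L) j then (0 : ℝ) else 1) =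
      (Finset.univ.filter fun j => ¬ Dep A (ball A j L) j).card := by
    simp [Finset.sum_ite]
  have h6 : (Finset.univ.filter fun j => ¬ Dep A (ball A j L) j).card = A.rank +
      (Finset.univ.filter fun j => Dep A Finset.univ j ∧ ¬ Dep A (ball A j L) j).card := by omega
  rw [h5, h6, Nat.cast_add, add_sub_cancel_left, Nat.abs_cast, le_div_iff₀ (by positivity)]
  exact_mod_cast h2

theorem card_nbR {d : ℕ} (hA : ∀ j, Set.ncard {i | A i j ≠ 0} ≤ d) (S : Finset (Fin n)) :
    (nbR A S).card ≤ S.card * d := by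
  classical
  refine le_trans (Finset.card_le_card (t := S.biUnion fun j => Finset.univ.filter
    fun i => A i j ≠ 0) fun i hi => by simpa [nbR] using hi)
    (Finset.card_biUnion_le_card_mul _ _ _ fun j _ => ?_)
  rw [← Set.ncard_coe_finset]
  simpa using hA j

theorem card_nbC {d : ℕ} (hA : ∀ i, Set.ncard {j | A i j ≠ 0} ≤ d) (R : Finset (Fin m)) :
    (nbC A R).card ≤ R.card * d := by
  classical
  refine le_trans (Finset.card_le_card (t := R.biUnion fun i => Finset.univ.filter
    fun j => A i j ≠ 0) fun i hi => by simpa [nbC] using hi)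
    (Finset.card_biUnion_le_card_mul _ _ _ fun j _ => ?_)
  rw [← Set.ncard_coe_finset]
  simpa using hA j

theorem card_ball (hr : ∀ i, Set.ncard {j | A i j ≠ 0} ≤ 2) (hc : ∀ j, Set.ncard {i | A i j ≠ 0} ≤ 2)
    (j : Fin n) (L : ℕ) : (ball A j L).card ≤ 5 ^ L := by
  induction L with
  | zero => simp [ball]
  | succ L ih =>
    have h1 := card_nbR hc (ball A j L)
    have h2 := card_nbC hr (nbR A (ball A j L))
    have h3 := Finset.card_union_le (ball A j L) (nbC A (nbR A (ball A j L)))
    rw [ball, pow_succ]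
    omega

end Pool.Agent.Lib.MP_97bd52_lc
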