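import Mathlib
import Pool.Agent.Lib.MP_97bd52_lc.P.Sol
import Pool.Agent.Lib.MP_97bd52_lc.P.Two

namespace Pool.Agent.Lib.MP_97bd52_lc

open Matrix MeasureTheory ProbabilityTheory

section Cmp

variable {p m n : ℕ} {α β : Type}

/-- `f` is computed with at most `q` queries on matrices of degree two. -/
def Cmp (f : Matrix (Fin m) (Fin n) (ZMod p) → α) (q : ℕ) : Prop :=
  ∀ k : α → Alg p m n, ∃ T : Alg p m n, ∀ A, Sparse 2 A →
    T.output A = (k (f A)).output A ∧ T.queries A ≤ q + (k (f A)).queries A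

theorem Cmp.pure (a : α) : Cmp (p := p) (m := m) (n := n) (fun _ => a) 0 :=
  fun k => ⟨k a, fun _ _ => ⟨rfl, by simp⟩⟩

theorem Cmp.congr {f g : Matrix (Fin m) (Fin n) (ZMod p) → α} {q q' : ℕ} (h : Cmp f q)
    (e : ∀ A, f A = g A) (hq : q ≤ q') : Cmp g q' := fun k => by
  obtain ⟨T, hT⟩ := h k
  exact ⟨T, fun A hA => by rw [← e]; exact ⟨(hT A hA).1, (hT A hA).2.trans (by omega)⟩⟩

theorem Cmp.bind {f : Matrix (Fin m) (Fin n) (ZMod p) → α}
    {g : α → Matrix (Fin m) (Fin n) (ZMod p) → β} {q q' : ℕ} (P : α → Prop) (h : Cmp f q)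
    (hP : ∀ A, Sparse 2 A → P (f A)) (h' : ∀ a, P a → Cmp (g a) q') :
    Cmp (fun A => g (f A) A) (q + q') := fun k => by
  classical
  choose T' hT' using fun a ha => h' a ha k
  obtain ⟨T, hT⟩ := h fun a => if ha : P a then T' a ha else .out 0
  refine ⟨T, fun A hA => ?_⟩
  have h1 := hT A hA
  have h2 := hT' _ (hP A hA) A hA
  rw [dif_pos (hP A hA)] at h1
  exact ⟨h1.1.trans h2.1, h1.2.trans (by rw [add_assoc]; exact Nat.add_le_add_left h2.2 _)⟩

theorem Cmp.map {f : Matrix (Fin m) (Fin n) (ZMod p) → α} {q : ℕ} (h : Cmp f q) (g : α → β) :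
    Cmp (fun A => g (f A)) q := fun k => h fun a => k (g a)

theorem Cmp.col (j : Fin n) : Cmp (p := p) (m := m) (fun A i => A i j) 1 :=
  fun k => ⟨.col j k, fun _ _ => ⟨rfl, by simp [Alg.queries, add_comm]⟩⟩

theorem Cmp.row (i : Fin m) : Cmp (p := p) (n := n) (fun A j => A i j) 1 :=
  fun k => ⟨.row i k, fun _ _ => ⟨rfl, by simp [Alg.queries, add_comm]⟩⟩

theorem Cmp.all {ι : Type} [DecidableEq ι] (a0 : α) {f : ι → Matrix (Fin m) (Fin n) (ZMod p) → α}
    {q : ℕ} (h : ∀ i, Cmp (f i) q) (S : Finset ι) :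
    Cmp (fun A i => if i ∈ S then f i A else a0) (S.card * q) := by
  induction S using Finset.induction_on with
  | empty => exact (Cmp.pure fun _ => a0).congr (by simp) (by simp)
  | insert j S hj ih =>
    refine (ih.bind (g := fun u A => Function.update u j (f j A)) (fun _ => True)
      (fun _ _ => trivial) fun u _ => (h j).map _).congr (fun A => funext fun i => ?_)
      (by rw [Finset.card_insert_of_notMem hj, add_mul, one_mul])
    by_cases e : i = j
    · simp [e]
    · simp [e]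

variable [Fact p.Prime]

theorem Cmp.nbR (S : Finset (Fin n)) :
    Cmp (p := p) (m := m) (fun A => nbR A S) S.card := by
  refine ((Cmp.all 0 Cmp.col S).map fun u => Pool.Agent.Lib.MP_97bd52_lc.nbR
    (Matrix.of fun i j => u j i) S).congr (fun A => ?_) (by simp)
  ext i
  simp only [Pool.Agent.Lib.MP_97bd52_lc.nbR, Finset.mem_filter, Finset.mem_univ, true_and,
    of_apply]
  exact exists_congr fun j => and_congr_right fun hj => by simp [hj]

theorem Cmp.nbC (R : Finset (Fin m)) :
    Cmp (p := p) (n := n) (fun A => nbC A R) R.card := by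
  refine ((Cmp.all 0 Cmp.row R).map fun u => Pool.Agent.Lib.MP_97bd52_lc.nbC
    (Matrix.of fun i j => u i j) R).congr (fun A => ?_) (by simp)
  ext i
  simp only [Pool.Agent.Lib.MP_97bd52_lc.nbC, Finset.mem_filter, Finset.mem_univ, true_and,
    of_apply]
  exact exists_congr fun j => and_congr_right fun hj => by simp [hj]

theorem Cmp.step (S : Finset (Fin n)) : Cmp (p := p) (m := m)
    (fun A => S ∪ Pool.Agent.Lib.MP_97bd52_lc.nbC A (Pool.Agent.Lib.MP_97bd52_lc.nbR A S))
    (S.card + S.card * 2) := by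
  have h : ∀ R : Finset (Fin m), R.card ≤ S.card * 2 → Cmp (p := p)
      (fun A => S ∪ Pool.Agent.Lib.MP_97bd52_lc.nbC A R) (S.card * 2) := fun R hR =>
    ((Cmp.nbC (p := p) R).map fun C => S ∪ C).congr (fun _ => rfl) hR
  exact (Cmp.nbR (p := p) (m := m) S).bind
    (g := fun R A => S ∪ Pool.Agent.Lib.MP_97bd52_lc.nbC A R)
    (fun R => R.card ≤ S.card * 2) (fun A hA => card_nbR hA.2 S) h

theorem Cmp.ball (j : Fin n) (L : ℕ) :
    Cmp (p := p) (m := m) (fun A => ball A j L) (5 ^ L) := by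
  induction L with
  | zero => exact (Cmp.pure {j}).congr (fun _ => rfl) (by simp)
  | succ L ih =>
    have h := ih.bind (g := fun S A => S ∪ Pool.Agent.Lib.MP_97bd52_lc.nbC A
      (Pool.Agent.Lib.MP_97bd52_lc.nbR A S)) (q' := 3 * 5 ^ L) (fun S => S.card ≤ 5 ^ L)
      (fun A hA => card_ball hA.1 hA.2 j L) fun S hS =>
        (Cmp.step (p := p) (m := m) S).congr (fun _ => rfl) (by omega)
    exact h.congr (fun _ => rfl) (by rw [pow_succ]; omega)

theorem Cmp.depS (S : Finset (Fin n)) (j : Fin n) :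
    Cmp (p := p) (m := m) (fun A => Dep A S j) S.card := by
  have h := (Cmp.all (p := p) (m := m) 0 Cmp.col S).map
    fun u => Dep (Matrix.of fun i j => u j i) S j
  refine h.congr (fun A => propext (exists_congr fun x => and_congr_right fun _ =>
      and_congr_right fun hx => ?_)) (by omega)
  refine Eq.congr_left (funext fun i => ?_)
  simp only [mulVec, dotProduct, of_apply]
  refine Finset.sum_congr rfl fun c _ => ?_
  by_cases hc : x c = 0
  · simp [hc]
  · simp [(hx c hc).2]

theorem Cmp.dep (j : Fin n) (L : ℕ) : Cmp (p := p) (m := m)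
    (fun A => Dep A (Pool.Agent.Lib.MP_97bd52_lc.ball A j L) j) (2 * 5 ^ L) := by
  have h := (Cmp.ball (p := p) (m := m) j L).bind (g := fun S A => Dep A S j) (q' := 5 ^ L)
    (fun S => S.card ≤ 5 ^ L) (fun A hA => card_ball hA.1 hA.2 j L) fun S hS =>
      (Cmp.depS (p := p) (m := m) S j).congr (fun _ => rfl) hS
  exact h.congr (fun _ => rfl) (by omega)

end Cmp

theorem sample {n k : ℕ} [NeZero n] (hk : 0 < k) (g : Fin n → ℝ) (hg : ∀ j, g j ∈ Set.Icc 0 1)
    {η : ℝ} (hη : 0 < η) (h : 1 ≤ k * η ^ 2) :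
    2 / 3 ≤ (Measure.pi fun _ : Fin k => (PMF.uniformOfFintype (Fin n)).toMeasure).real
      {ω | |(n : ℝ) / k * ∑ t, g (ω t) - ∑ j, g j| ≤ η * n} := by
  set ν := (PMF.uniformOfFintype (Fin n)).toMeasure
  set μ := Measure.pi fun _ : Fin k => ν
  have n0 : (0 : ℝ) < n := by exact_mod_cast NeZero.pos n
  have k0 : (0 : ℝ) < k := by exact_mod_cast hk
  have e1 : ∫ j, g j ∂ν = (∑ j, g j) / n := by
    rw [PMF.integral_eq_sum]
    simp [div_eq_inv_mul, Finset.mul_sum]
  have e2 : μ[∑ t : Fin k, fun ω : Fin k → Fin n => g (ω t)] = k * ((∑ j, g j) / n) := by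
    simp only [Finset.sum_apply]
    rw [integral_finsetSum _ fun _ _ => .of_finite, Finset.sum_congr rfl fun (t : Fin k) _ =>
      integral_comp_eval (μ := fun _ => ν) (i := t) (measurable_of_finite g).aestronglyMeasurable]
    simp [e1]
  have e3 : Var[∑ t : Fin k, fun ω : Fin k → Fin n => g (ω t); μ] ≤ k / 4 := by
    rw [variance_sum_pi (X := fun _ => g) fun _ => .of_discrete]
    have := variance_le_sq_of_bounded (μ := ν) (Filter.Eventually.of_forall hg)
      (measurable_of_finite g).aemeasurable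
    simp only [Finset.sum_const, Finset.card_univ, Fintype.card_fin, nsmul_eq_mul]
    nlinarith
  have e4 := meas_ge_le_variance_div_sq (μ := μ)
    (X := ∑ t : Fin k, fun ω : Fin k → Fin n => g (ω t)) .of_discrete (mul_pos k0 hη)
  rw [e2] at e4
  have e5 : μ.real {ω | |(n : ℝ) / k * ∑ t, g (ω t) - ∑ j, g j| ≤ η * n}ᶜ ≤ 1 / 4 := by
    refine ENNReal.toReal_le_of_le_ofReal (by norm_num) ((measure_mono fun ω hω => ?_).trans
      (e4.trans (ENNReal.ofReal_le_ofReal ?_)))
    · simp only [Set.mem_compl_iff, Set.mem_ofPred_eq, not_le, Finset.sum_apply] at hω ⊢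
      have : (n : ℝ) / k * ∑ t, g (ω t) - ∑ j, g j =
          n / k * (∑ t, g (ω t) - k * ((∑ j, g j) / n)) := by field_simp
      rw [this, abs_mul, abs_of_pos (div_pos n0 k0), div_mul_eq_mul_div, lt_div_iff₀ k0] at hω
      exact le_of_mul_le_mul_left (by linarith) n0
    · rw [div_le_iff₀ (by positivity)]
      nlinarith
  rw [probReal_compl_eq_one_sub .of_discrete] at e5
  linarith

theorem upperP (p : ℕ) (hp : p.Prime) {ε : ℝ} (hε : 0 < ε) :
    ∃ Q : ℕ, ∀ m n : ℕ, Solves p 2 ε m n Q := by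
  classical
  have : Fact p.Prime := ⟨hp⟩
  obtain ⟨L, hL⟩ := exists_nat_one_div_lt (half_pos hε)
  obtain ⟨k, hk⟩ := exists_nat_gt (1 / (ε / 2) ^ 2)
  have k0 : 0 < k := Nat.cast_pos.1 (lt_trans (by positivity) hk)
  rw [div_lt_iff₀ (by positivity)] at hk
  refine ⟨k * (2 * 5 ^ L), fun m n => ?_⟩
  rcases Nat.eq_zero_or_pos n with rfl | hn
  · refine ⟨Unit, ⊤, Measure.dirac (), inferInstance, fun _ => .out 0,
      fun A _ => ⟨fun _ => Nat.zero_le _, trivial, ?_⟩⟩
    have : A.rank = 0 := Nat.le_zero.1 A.rank_le_width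
    simp only [Alg.output, this]
    norm_num
  have : NeZero n := ⟨hn.ne'⟩
  have h := fun ω : Fin k → Fin n => (Cmp.all (m := m) (p := p) True
    (fun t => Cmp.dep (ω t) L) Finset.univ) fun u =>
      .out ((n : ℝ) / k * ∑ t, if u t then 0 else 1)
  choose T hT using h
  refine ⟨Fin k → Fin n, inferInstance,
    Measure.pi fun _ => (PMF.uniformOfFintype (Fin n)).toMeasure, inferInstance, T,
    fun A hA => ⟨fun ω => by simpa [Alg.queries] using (hT ω A hA).2, .of_discrete, ?_⟩⟩
  refine (sample k0 (fun j => if Dep A (ball A j L) j then 0 else 1)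
    (fun j => by split_ifs <;> simp) (half_pos hε) hk.le).trans (measureReal_mono fun ω hω => ?_)
  have h1 := sum_dep (A := A) hA.1 L
  have h2 : (n : ℝ) / (L + 1) ≤ ε / 2 * n := by
    rw [div_eq_mul_one_div, mul_comm]
    exact mul_le_mul_of_nonneg_right hL.le (Nat.cast_nonneg n)
  simp only [Set.mem_ofPred_eq] at hω ⊢
  rw [(hT ω A hA).1]
  simp only [Alg.output, Finset.mem_univ, if_true]
  refine (abs_sub_le _ _ _).trans ((add_le_add hω (h1.trans h2)).trans_eq (by ring))

theorem read_cols {p m n : ℕ} (S : Finset (Fin n))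
    (k : Matrix (Fin m) (Fin n) (ZMod p) → ℝ) : ∃ T : Alg p m n, ∀ A,
      T.output A = k (of fun i j => if j ∈ S then A i j else 0) ∧ T.queries A ≤ S.card := by
  induction S using Finset.induction_on generalizing k with
  | empty => exact ⟨.out (k 0), fun A => ⟨congrArg k (by ext; simp), le_rfl⟩⟩
  | insert j S hj ih =>
    choose T hT using fun v : Fin m → ZMod p => ih fun B => k (B.updateCol j v)
    refine ⟨.col j T, fun A => ⟨(hT _ A).1.trans (congrArg k ?_), ?_⟩⟩
    · ext i c
      by_cases e : c = j <;> simp [e]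
    · rw [Finset.card_insert_of_notMem hj]
      exact Nat.succ_le_succ (hT _ A).2

theorem solves_all (p d : ℕ) {ε : ℝ} (hε : 0 ≤ ε) (m n : ℕ) : Solves p d ε m n n := by
  obtain ⟨T, hT⟩ := read_cols (p := p) (m := m) (n := n) Finset.univ fun B => B.rank
  refine ⟨Unit, ⊤, Measure.dirac (), inferInstance, fun _ => T,
    fun A _ => ⟨fun _ => by simpa using (hT A).2, trivial, ?_⟩⟩
  have e : T.output A = A.rank := (hT A).1.trans (by
    congr 2
    ext
    simp)
  have : (0 : ℝ) ≤ ε * n := by positivity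
  simp only [e, sub_self, abs_zero, this]
  norm_num

end Pool.Agent.Lib.MP_97bd52_lc
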