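import Mathlib
import Pool.Agent.Lib.MP_97bd52_lc.Main
import Pool.Agent.Lib.MP_97bd52_lc.P.Cod
import Pool.Agent.Lib.MP_97bd52_lc.P.Red
import Pool.Agent.Lib.MP_97bd52_lc.P.Up

namespace Pool.Agent.Lib.MP_97bd52_lc

open MeasureTheory Module

theorem Sparse.mono {p m n d d' : ℕ} (h : d ≤ d') {A : Matrix (Fin m) (Fin n) (ZMod p)}
    (hA : Sparse d A) : Sparse d' A :=
  ⟨fun i => (hA.1 i).trans h, fun j => (hA.2 j).trans h⟩

/-- A sparse family placed in `n × n` matrices of degree three. -/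
theorem Fam.place {G F K I J : Type} [Nonempty G] [Fintype F] [Field K] [Fintype I] [Fintype J]
    {d n : ℕ} {A : (G → F) → Matrix I J K} (h : Fam d A)
    (hn : (Fintype.card I + Fintype.card J) * (Fintype.card F * d + 1) ≤ n) :
    ∃ (B : (G → F) → Matrix (Fin n) (Fin n) K) (X : ℕ), Fam 3 B ∧
      ∀ c, (B c).rank = (A c).rank + X := by
  classical
  obtain ⟨ρ, κ, hR⟩ := h.red
  obtain ⟨e⟩ : Nonempty (((I × Fin (Fintype.card F * d + 1)) ⊕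
      (J × Fin (Fintype.card F * d + 1))) ↪ Fin n) :=
    Function.Embedding.nonempty_of_card_le (by simpa [add_mul] using hn)
  obtain ⟨f⟩ : Nonempty (((J × Fin (Fintype.card F * d + 1)) ⊕
      (I × Fin (Fintype.card F * d + 1))) ↪ Fin n) :=
    Function.Embedding.nonempty_of_card_le (by simpa [add_mul, add_comm] using hn)
  exact ⟨_, _, hR.pad e f, fun c => by rw [rank_pad, rank_red]⟩

theorem coreP {p : ℕ} [hp : Fact p.Prime] (F : Type) [Field F] [Fintype F] [CharP F p]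
    [Algebra (ZMod p) F] (hq : Fintype.card F = p ^ 134) (b : Basis (Fin 134) (ZMod p) F) :
    ∃ ε₀ c : ℝ, 0 < ε₀ ∧ 0 < c ∧ ∃ n₀ : ℕ, ∀ ε ≤ ε₀, ∀ d ≥ 3, ∀ n ≥ n₀,
    ∀ (Ω : Type) [MeasurableSpace Ω] (μ : Measure Ω) [IsProbabilityMeasure μ]
      (T : Ω → Alg p n n) (Q : ℕ),
      (∀ A, Sparse d A → ∀ ω, (T ω).queries A ≤ Q) →
      (∀ A, Sparse d A → MeasurableSet {ω | |(T ω).output A - A.rank| ≤ ε * n} ∧
        2 / 3 ≤ μ.real {ω | |(T ω).output A - A.rank| ≤ ε * n}) →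
      c * n ≤ Q := by
  classical
  obtain ⟨N, h1, h2, h3⟩ := exists_family F
  obtain ⟨D, hD⟩ : ∃ D, D = 2 * ((3 * Fintype.card F + 1) * 134) *
    (Fintype.card F * ((3 * Fintype.card F ^ 2 + 1) * Fintype.card (Fin 134)) + 1) := ⟨_, rfl⟩
  obtain ⟨C, hC⟩ : ∃ C, C = Fintype.card F ^ 9 := ⟨_, rfl⟩
  obtain ⟨a, ha⟩ : ∃ a, a = 8 * p ^ 34 := ⟨_, rfl⟩
  obtain ⟨a', ha'⟩ : ∃ a', a' = 2 * p ^ 63 := ⟨_, rfl⟩
  have p0 := hp.out.pos
  have q0 := Fintype.card_pos (α := F)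
  have D0 : 0 < D := by rw [hD]; positivity
  have C0 : 0 < C := by rw [hC]; positivity
  have D0' : (0 : ℝ) < D := by exact_mod_cast D0
  have C0' : (0 : ℝ) < C := by exact_mod_cast C0
  have a0 : (0 : ℝ) < a := by rw [ha]; positivity
  have a0' : (0 : ℝ) < a' := by rw [ha']; positivity
  rw [← hC] at h2
  refine ⟨1 / (a * (C * D)), 1 / (a' * (C * D)), by positivity, by positivity, D * N 0,
    fun ε hε d hd n hn Ω _ μ _ T Q hQ hT => ?_⟩
  obtain ⟨s, s1, s2⟩ := exists_scale D0 h1 h2 hn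
  obtain ⟨G, _, _, hG, ⟨Tr⟩⟩ := h3 s
  obtain ⟨A, W, c0, r, gap, hA, hgap, hW, hr⟩ := Tr.hardP hq
  rw [← ha] at hgap
  rw [← ha'] at hW
  obtain ⟨B, X, hB, hX⟩ := (hA.expand b).place (n := n) (by
    refine le_trans (le_of_eq ?_) s1
    simp [hG, hD]
    ring)
  by_contra hlt
  have G0 : (0 : ℝ) < Fintype.card G := by exact_mod_cast Fintype.card_pos (α := G)
  have s2' : (n : ℝ) ≤ C * D * Fintype.card G := by rw [hG]; exact_mod_cast s2
  have hQ' : a' * Q < Fintype.card G := by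
    rw [not_le, div_mul_eq_mul_div, one_mul, lt_div_iff₀ (by positivity)] at hlt
    have : (C * D : ℝ) * (a' * Q) < C * D * Fintype.card G := by linarith
    exact_mod_cast lt_of_mul_lt_mul_left this (by positivity)
  refine yao hB W c0 (134 * r + X) (134 * (r + gap) + X) (ε * n)
    (fun S hS => hW S (lt_of_le_of_lt (Nat.mul_le_mul_left _ hS) hQ')) (fun c hc => ?_) ?_ μ T
    (fun c ω => hQ _ ((hB.sparse c).mono hd) ω) (fun c => hT _ ((hB.sparse c).mono hd))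
  · simp only [hX, rank_expand, Fintype.card_fin, (hr c hc).1, (hr c hc).2, and_self]
  · have g1 : (Fintype.card G : ℝ) ≤ a * gap := by exact_mod_cast hgap
    have g2 : 1 / (a * (C * D) : ℝ) * n ≤ gap := by
      rw [div_mul_eq_mul_div, one_mul, div_le_iff₀ (by positivity)]
      exact s2'.trans ((mul_le_mul_of_nonneg_left g1 (mul_pos C0' D0').le).trans_eq (by ring))
    have g4 := mul_le_mul_of_nonneg_right hε (Nat.cast_nonneg n)
    have g3 : (0 : ℝ) < gap := (mul_pos_iff_of_pos_left a0).1 (G0.trans_le g1)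
    push_cast
    linarith

theorem mainP (p : ℕ) (hp : p.Prime) : ∃ ε₀ c : ℝ, 0 < ε₀ ∧ 0 < c ∧ ∃ n₀ : ℕ,
    ∀ ε ≤ ε₀, ∀ d ≥ 3, ∀ n ≥ n₀,
    ∀ (Ω : Type) [MeasurableSpace Ω] (μ : Measure Ω) [IsProbabilityMeasure μ]
      (T : Ω → Alg p n n) (Q : ℕ),
      (∀ A, Sparse d A → ∀ ω, (T ω).queries A ≤ Q) →
      (∀ A, Sparse d A → MeasurableSet {ω | |(T ω).output A - A.rank| ≤ ε * n} ∧
        2 / 3 ≤ μ.real {ω | |(T ω).output A - A.rank| ≤ ε * n}) →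
      c * n ≤ Q := by
  have : Fact p.Prime := ⟨hp⟩
  let _ : Fintype (GaloisField p 134) := Fintype.ofFinite _
  exact coreP (GaloisField p 134)
    (by rw [← Nat.card_eq_fintype_card, GaloisField.card p 134 (by norm_num)])
    (Module.finBasisOfFinrankEq _ _ (GaloisField.finrank p (by norm_num)))

theorem dichotomy (p : ℕ) (hp : p.Prime) (d : ℕ) :
    (3 ≤ d → ∃ ε₀ c : ℝ, 0 < ε₀ ∧ 0 < c ∧ ∃ n₀ : ℕ, ∀ ε, 0 < ε → ε ≤ ε₀ → ∀ n ≥ n₀,
      (∀ Q, Solves p d ε n n Q → c * n ≤ Q) ∧ ∀ m, Solves p d ε m n n) ∧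
    (d ≤ 2 → ∀ ε > 0, ∃ Q, ∀ m n, Solves p d ε m n Q) := by
  refine ⟨fun hd => ?_, fun hd ε hε => ?_⟩
  · obtain ⟨ε₀, c, h1, h2, n₀, h⟩ := mainP p hp
    refine ⟨ε₀, c, h1, h2, n₀, fun ε e1 e2 n hn => ⟨?_, fun m => solves_all p d e1.le m n⟩⟩
    rintro Q ⟨Ω, _, μ, _, T, hT⟩
    exact h ε e2 d hd n hn Ω μ T Q (fun A hA => (hT A hA).1) fun A hA => (hT A hA).2
  · obtain ⟨Q, hQ⟩ := upperP p hp hε
    refine ⟨Q, fun m n => ?_⟩
    obtain ⟨Ω, _, μ, _, T, hT⟩ := hQ m n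
    exact ⟨Ω, _, μ, inferInstance, T, fun A hA => hT A (hA.mono hd)⟩

end Pool.Agent.Lib.MP_97bd52_lc
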